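import Pool.Agent.R951.SA.Upper
import Pool.Agent.R951.SA.Att
import Pool.Agent.R951.SA.Dens
import Pool.Agent.R951.SA.Alg

open MeasureTheory Set Filter Topology

namespace Pool.Agent.Results.MP_76c07a_co.NotSemialgebraic

open Pool.Agent.R951.SA

/-- The factor `g_i`: `f` for the letter `1` (`true`), `1 - f` for the letter `0` (`false`). -/
def letterFactor (b : Bool) (f : ℝ → ℝ) (x : ℝ) : ℝ := if b then f x else 1 - f x

/-- The density `ρ_w(f) = m! ∫_{0 ≤ x_1 < ... < x_m ≤ 1} ∏ g_i(x_i) dx` of the word `w`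
(an `m`-dimensional Lebesgue integral, `m` the length of `w`). -/
noncomputable def density (w : List Bool) (f : ℝ → ℝ) : ℝ :=
  (w.length.factorial : ℝ) *
    ∫ x in {x : Fin w.length → ℝ | StrictMono x ∧ ∀ i, x i ∈ Icc (0:ℝ) 1},
      ∏ i, letterFactor (w.get i) f (x i)

/-- Densities of sublebesgue measures: measurable functions with values in `[0,1]`
(only the restriction to `[0,1]` enters `density`). -/
def IsDensityFunction (f : ℝ → ℝ) : Prop := Measurable f ∧ ∀ x, f x ∈ Icc (0:ℝ) 1

/-- The feasibility set `E_W` of a finite set `W` of words. -/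
def feasible (W : Finset (List Bool)) : Set (W → ℝ) :=
  {z | ∃ f : ℝ → ℝ, IsDensityFunction f ∧ ∀ w : W, z w = density w f}

/-- Semi-algebraic sets: finite unions of sets `{p = 0, q_1 > 0, ..., q_r > 0}`. -/
def IsSemialgebraic {ι : Type} (S : Set (ι → ℝ)) : Prop :=
  ∃ F : Finset (MvPolynomial ι ℝ × Finset (MvPolynomial ι ℝ)),
    S = {x | ∃ a ∈ F, MvPolynomial.eval x a.1 = 0 ∧ ∀ q ∈ a.2, 0 < MvPolynomial.eval x q}

/-- the set of the two words `10` and `1010` -/
def W0 : Finset (List Bool) := {[true, false], [true, false, true, false]}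

/-- The set `E_W` for `W = {10, 1010}` is not semi-algebraic. -/
theorem result :
    ∃ W : Finset (List Bool), W = {[true, false], [true, false, true, false]} ∧
      (∀ w ∈ W, w ≠ []) ∧ ¬ IsSemialgebraic (feasible W) := by
  refine ⟨W0, rfl, by simp [W0], ?_⟩
  rintro ⟨F, hF⟩
  let i0 : W0 := ⟨[true, false], by simp [W0]⟩
  let i1 : W0 := ⟨[true, false, true, false], by simp [W0]⟩
  have h01 : i1 ≠ i0 := by
    intro h
    have := congrArg Subtype.val h
    simp [i0, i1] at this
  have hall : ∀ i : W0, i = i0 ∨ i = i1 := by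
    rintro ⟨w, hw⟩
    simp only [W0, Finset.mem_insert, Finset.mem_singleton] at hw
    rcases hw with rfl | rfl
    · exact Or.inl rfl
    · exact Or.inr rfl
  have hd0 : ∀ f, IsDensityFunction f → density i0 f = 2 * UU f 1 := fun f hf => rho_10 hf
  have hd1 : ∀ f, IsDensityFunction f →
      density i1 f = 24 * ∫ t in (0:ℝ)..1, UU f t * RR f t * f t := fun f hf => rho_1010 hf
  -- the product of the nonzero equations
  let Q : MvPolynomial W0 ℝ := ∏ a ∈ F.filter (fun a => a.1 ≠ 0), a.1
  have hQ : Q ≠ 0 := Finset.prod_ne_zero_iff.2 fun a ha => (Finset.mem_filter.1 ha).2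
  obtain ⟨L, hL, hQL⟩ : ∃ L : ℝ, 0 < L ∧ MvPolynomial.eval (zz i0 L) Q ≠ 0 := by
    by_contra hcon
    push Not at hcon
    exact hQ (alg_zero i0 i1 h01 hall Q hcon)
  set a := Real.exp (-L) with ha
  have ha0 : 0 < a := Real.exp_pos _
  have ha1 : a < 1 := by rw [ha]; exact Real.exp_lt_one_iff.2 (by linarith)
  have hlog : Real.log a = -L := Real.log_exp _
  have hz0 : zz i0 L i0 = a * (1 + L) / 2 := by simp [zz, ha]
  have hz1 : zz i0 L i1 = 3/4 * a ^ 2 * L ^ 2 := by simp [zz, ha, h01]
  -- the point of the curve is feasible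
  have hmem : zz i0 L ∈ feasible W0 := by
    refine ⟨ff a, ff_adm ha0, fun w => ?_⟩
    rcases hall w with rfl | rfl
    · rw [hd0 _ (ff_adm ha0), UU_att ha0 ha1, hlog, hz0]; ring
    · rw [hd1 _ (ff_adm ha0), JJ_att ha0 ha1, hlog, hz1]; ring
  rw [hF] at hmem
  obtain ⟨b, hbF, hb0, hbpos⟩ := hmem
  have hb1 : b.1 = 0 := by
    by_contra hne
    apply hQL
    rw [map_prod]
    exact Finset.prod_eq_zero (Finset.mem_filter.2 ⟨hbF, hne⟩) hb0
  -- points slightly above the curve satisfy the same inequalities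
  have hcont : ∀ q : MvPolynomial W0 ℝ, Continuous fun ε : ℝ =>
      MvPolynomial.eval (Function.update (zz i0 L) i1 (zz i0 L i1 + ε)) q := by
    intro q
    refine (MvPolynomial.continuous_eval q).comp ?_
    exact continuous_const.update i1 (continuous_const.add continuous_id)
  have hev : ∀ᶠ ε : ℝ in 𝓝 0, ∀ q ∈ b.2,
      0 < MvPolynomial.eval (Function.update (zz i0 L) i1 (zz i0 L i1 + ε)) q := by
    rw [Filter.eventually_all_finset]
    intro q hq
    have h1 := (hcont q).tendsto 0
    simp only [add_zero, Function.update_eq_self] at h1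
    exact h1.eventually (lt_mem_nhds (hbpos q hq))
  obtain ⟨ε, hε, hε0⟩ := ((hev.filter_mono nhdsWithin_le_nhds).and
    (self_mem_nhdsWithin : ∀ᶠ ε : ℝ in 𝓝[>] 0, ε ∈ Ioi (0:ℝ))).exists
  have hmem2 : Function.update (zz i0 L) i1 (zz i0 L i1 + ε) ∈ feasible W0 := by
    rw [hF]
    exact ⟨b, hbF, by rw [hb1]; simp, hε⟩
  obtain ⟨f, hf, hfw⟩ := hmem2
  have e0 := hfw i0
  have e1 := hfw i1
  rw [Function.update_of_ne h01.symm, hd0 f hf, hz0] at e0
  rw [Function.update_self, hd1 f hf, hz1] at e1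
  have hup := upper (f := f) hf (c := a / 4) (by positivity) (by linarith)
  have hlog2 : Real.log (1 / (4 * (a / 4))) = L := by
    rw [show 4 * (a / 4) = a by ring, one_div, Real.log_inv, hlog]; ring
  rw [hlog2] at hup
  have hu : UU f 1 = a / 4 * (1 + L) := by linarith
  rw [hu] at hup
  have hε' : 0 < ε := hε0
  nlinarith

end Pool.Agent.Results.MP_76c07a_co.NotSemialgebraic
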